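import Pool.Agent.Y80.KI.CharFin
import Pool.Agent.Y85.KM.Exist

set_option autoImplicit false

/-! The character formula of Kashuba and Mathieu for free Jordan algebras fails for every `V` with
`dim V ≥ 2`, in infinitely many degrees, already in the multidegrees which are supported on two
given coordinates. There the theorem of Shirshov and Cohn gives the dimensions of `Jord(V)`; in
total degree `n` they add up to `(2 ^ n + 2 ^ ⌈n/2⌉) / 2`. If almost all coefficients of `a(V)`
were these numbers, the generating function of the sums over total degree `n` would be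
`1 / (2 - 4 t)` plus a function which is holomorphic for `|t| < 7/10`, and the defining property of
the pair would give a functional equation which is refuted by analytic continuation past the pole
`t = 1/2`. -/

namespace Pool.Agent.Results.MP_dbd475_al.InfinitelyManyFailures

open Pool.Agent.Y80.KM

/-- Let `k` be any field of characteristic zero and `dim V = d ≥ 2`. There is exactly one pair
`(a(V), b(V))` with the properties of Kashuba and Mathieu, and `[Jord(V)] ≠ a(V)`. More precisely,
for any two coordinates `i ≠ j` and every `n₀` there is a multidegree `l e_i + m e_j` with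
`l + m ≥ n₀` such that the coefficient of `a(V)` is not the dimension of the component of
`Jord(V)` of this multidegree. -/
theorem result (k : Type*) [Field k] [CharZero k] (d : ℕ) (hd : 2 ≤ d) :
    (∃! p : MvPowerSeries (Fin d) ℤ × MvPowerSeries (Fin d) ℤ, IsKMPair p.1 p.2) ∧
      ∀ a b : MvPowerSeries (Fin d) ℤ, IsKMPair a b → jordChar k d ≠ a ∧
        ∀ i j : Fin d, i ≠ j → ∀ n₀ : ℕ, ∃ l m : ℕ, n₀ ≤ l + m ∧
          MvPowerSeries.coeff (Finsupp.single i l + Finsupp.single j m) a ≠
            Module.finrank k (qmcomp (jordRel k d) (Finsupp.single i l + Finsupp.single j m)) := by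
  refine ⟨Pool.Agent.Y85.KM.existsUnique_pair d, fun a b h => ⟨?_, fun i j hij n₀ =>
    Pool.Agent.Y80.KI.km_inf k i j hij a b h n₀⟩⟩
  rintro rfl
  obtain ⟨l, m, -, h2⟩ := Pool.Agent.Y80.KI.km_inf k (⟨0, by omega⟩ : Fin d) ⟨1, by omega⟩
    (by simp) _ b h 0
  exact h2 rfl

end Pool.Agent.Results.MP_dbd475_al.InfinitelyManyFailures
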